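import Pool.Agent.H58.FL.TargetsD

/-!
# One edge of a wheel with five spokes, second part: board `fld_modules`, row `P5B`
-/

open Pool.Agent.H58.FL Pool.Agent.H59 Pool.Agent.H48.FR

namespace Pool.Agent.H4.FL

theorem cos_low {m : ℝ} (hm0 : 0 ≤ m) (hm1 : m ≤ 1) :
    1 / 2 + 3 / 8 * m ≤ Real.cos (Real.pi / 3 - 11 / 20 * m) := by
  have hpi1 := Real.pi_gt_d2
  have hpi2 := Real.pi_lt_d2
  have hc := strictConcaveOn_cos_Icc.concaveOn
  have hx : Real.pi / 3 ∈ Set.Icc (-(Real.pi / 2)) (Real.pi / 2) := ⟨by linarith, by linarith⟩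
  have hy : Real.pi / 3 - 11 / 20 ∈ Set.Icc (-(Real.pi / 2)) (Real.pi / 2) :=
    ⟨by linarith, by linarith⟩
  have h1 := hc.2 hx hy (by linarith : (0 : ℝ) ≤ 1 - m) hm0 (by ring)
  simp only [smul_eq_mul] at h1
  have e1 : (1 - m) * (Real.pi / 3) + m * (Real.pi / 3 - 11 / 20) =
      Real.pi / 3 - 11 / 20 * m := by ring
  rw [e1, Real.cos_pi_div_three] at h1
  have h2 : (7 : ℝ) / 8 ≤ Real.cos (Real.pi / 3 - 11 / 20) := by
    refine le_trans ?_ (Real.one_sub_sq_div_two_le_cos)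
    nlinarith
  have h3 : m * (7 / 8) ≤ m * Real.cos (Real.pi / 3 - 11 / 20) :=
    mul_le_mul_of_nonneg_left h2 hm0
  linarith

theorem pf_P5B (hNU3 : T_NU3) : T_P5B := by
  obtain ⟨⟨g1, g2, g3⟩, -, ⟨-, c1⟩, -⟩ := hNU3
  intro T φ γ hT1 hT2 hφ hγ0 hγπ h
  have hpi := Real.pi_gt_d2
  have hpi2 := Real.pi_lt_d2
  have hg0 : 0 < gr := by linarith
  have hgi : (gr ^ 2)⁻¹ = 3 - gr ^ 2 := by
    rw [inv_eq_iff_eq_inv, eq_comm, inv_eq_iff_eq_inv]
    refine eq_inv_of_mul_eq_one_left ?_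
    rw [g1]
    nlinarith
  rw [hgi] at hT1
  have hT0 : 0 < T := by nlinarith
  have hTi : T * T⁻¹ = 1 := mul_inv_cancel₀ hT0.ne'
  have hTi0 : 0 < T⁻¹ := inv_pos.2 hT0
  obtain ⟨φ1, φ2⟩ := abs_le.1 hφ
  obtain ⟨M, hM⟩ : ∃ M : ℝ, M = T + T⁻¹ := ⟨_, rfl⟩
  have hTM : T * M = T ^ 2 + 1 := by
    rw [hM, mul_add, hTi]
    ring
  have hM2 : 2 ≤ M := by
    by_contra hc
    push Not at hc
    have : T * M < T * 2 := mul_lt_mul_of_pos_left hc hT0
    nlinarith [sq_nonneg (T - 1)]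
  have hM3 : M ≤ 3 := by
    by_contra hc
    push Not at hc
    have h1 : T * 3 < T * M := mul_lt_mul_of_pos_left hc hT0
    have h2 : 0 ≤ (gr ^ 2 - T) * (T - (3 - gr ^ 2)) :=
      mul_nonneg (by linarith) (by linarith)
    have h3 : gr ^ 2 * (3 - gr ^ 2) = 1 := by
      rw [g1]
      nlinarith
    nlinarith
  refine ⟨?_, fun h35 => ?_⟩
  · rw [← hM]
    by_contra hcon
    push Not at hcon
    -- the sum of the angles is below pi
    have hs : φ + γ < Real.pi := by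
      by_contra hs
      push Not at hs
      have h1 : Real.cos φ ≤ Real.cos (Real.pi - γ) :=
        Real.cos_le_cos_of_nonneg_of_le_pi (by linarith) (by linarith) (by linarith)
      rw [Real.cos_pi_sub] at h1
      have h2 := Real.cos_le_one γ
      have h3 := Real.neg_one_le_cos γ
      rcases le_total 1 T with hT | hT
      · have h4 : (T - 1) * Real.cos γ ≤ (T - 1) * 1 :=
          mul_le_mul_of_nonneg_left h2 (by linarith)
        nlinarith
      · have h4 : (1 - T) * (-1) ≤ (1 - T) * Real.cos γ :=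
          mul_le_mul_of_nonneg_left h3 (by linarith)
        nlinarith
    -- Cauchy-Schwarz
    have hcs : (1 + T) ^ 2 / 4 < 1 + T ^ 2 + 2 * T * Real.cos (φ + γ) := by
      have e1 : Real.cos γ = Real.cos (φ + γ) * Real.cos φ + Real.sin (φ + γ) * Real.sin φ := by
        rw [← Real.cos_sub]
        congr 1
        ring
      have e2 := Real.sin_sq_add_cos_sq (φ + γ)
      have e3 := Real.sin_sq_add_cos_sq φ
      rw [e1] at h
      obtain ⟨a, ha⟩ : ∃ a : ℝ, a = Real.cos (φ + γ) := ⟨_, rfl⟩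
      obtain ⟨b, hb⟩ : ∃ b : ℝ, b = Real.sin (φ + γ) := ⟨_, rfl⟩
      obtain ⟨p, hp⟩ : ∃ p : ℝ, p = Real.cos φ := ⟨_, rfl⟩
      obtain ⟨q, hq⟩ : ∃ q : ℝ, q = Real.sin φ := ⟨_, rfl⟩
      rw [← ha, ← hb] at e2
      rw [← hp, ← hq] at e3
      rw [← ha, ← hb, ← hp, ← hq] at h
      rw [← ha]
      have h1 : (p + T * (a * p + b * q)) ^ 2 ≤ (1 + T * a) ^ 2 + (T * b) ^ 2 := by
        have h2 : (1 + T * a) ^ 2 + (T * b) ^ 2 - (p + T * (a * p + b * q)) ^ 2 =
            ((1 + T * a) * q - T * b * p) ^ 2 + (1 - (q ^ 2 + p ^ 2)) *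
              ((1 + T * a) ^ 2 + (T * b) ^ 2) := by ring
        rw [e3, sub_self, zero_mul, add_zero] at h2
        have := sq_nonneg ((1 + T * a) * q - T * b * p)
        linarith
      have h3 : (1 / 2 * (1 + T)) ^ 2 < (p + T * (a * p + b * q)) ^ 2 :=
        pow_lt_pow_left₀ h (by positivity) (by norm_num)
      have h4 : (1 + T * a) ^ 2 + (T * b) ^ 2 = 1 + T ^ 2 + 2 * T * a := by
        have : (1 + T * a) ^ 2 + (T * b) ^ 2 = 1 + T ^ 2 * (b ^ 2 + a ^ 2) + 2 * T * a := by ring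
        rw [this, e2]
        ring
      have h5 : (1 / 2 * (1 + T)) ^ 2 = (1 + T) ^ 2 / 4 := by ring
      linarith
    have hcl := cos_low (m := M - 2) (by linarith) (by linarith)
    have h1 : Real.cos (φ + γ) ≤ Real.cos (2 * Real.pi / 3 + 11 / 20 * (M - 2)) :=
      Real.cos_le_cos_of_nonneg_of_le_pi (by linarith) hs.le hcon.le
    have h2 : Real.cos (2 * Real.pi / 3 + 11 / 20 * (M - 2)) =
        -Real.cos (Real.pi / 3 - 11 / 20 * (M - 2)) := by
      rw [← Real.cos_pi_sub]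
      congr 1
      ring
    have h3 : Real.cos (φ + γ) ≤ -(1 / 2 + 3 / 8 * (M - 2)) := by linarith
    have h4 : T * Real.cos (φ + γ) ≤ T * -(1 / 2 + 3 / 8 * (M - 2)) :=
      mul_le_mul_of_nonneg_left h3 hT0.le
    have h5 : T * -(1 / 2 + 3 / 8 * (M - 2)) = 1 / 4 * T - 3 / 8 * (T * M) := by ring
    rw [h5, hTM] at h4
    nlinarith
  · have h1 : Real.cos φ ≤ Real.cos (3 * Real.pi / 5) :=
      Real.cos_le_cos_of_nonneg_of_le_pi (by positivity) (by linarith) h35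
    rw [c1] at h1
    have h2 : T * Real.cos γ ≤ T * 1 := mul_le_mul_of_nonneg_left (Real.cos_le_one γ) hT0.le
    linarith

end Pool.Agent.H4.FL
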